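import Pool.Agent.Helper46.C2.St

/-!
# Project C2, module PB
-/

set_option autoImplicit false

namespace Pool.Agent.Helper32.C2

open Pool.Agent.Helper46.C2

private theorem pb_cj {G H : Type} [Group G] [Group H] (φ : G →* H) (a t : G) (i : ℤ) :
    Pool.Agent.Helper43.GD.cj (φ a) (φ t) i = φ (Pool.Agent.Helper43.GD.cj a t i) := by
  unfold Pool.Agent.Helper43.GD.cj
  simp only [map_mul, map_zpow, map_inv]

theorem hPB (h1 : StXE) (h2 : StGD) (h3 : StPA) : StPB := by
  intro G _ k a w t hk hR hcl
  have hz0 := h1 G k a w t hR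
  obtain ⟨hzz, haa, hza, hzt, hcom⟩ := h2 G k a w t hR hz0
  obtain ⟨r1, r2, r3⟩ := hR
  have hzw : (w * w) * w = w * (w * w) := mul_assoc w w w
  have hcen : ∀ g : G, (w * w) * g = g * (w * w) := by
    intro g
    have hg : g ∈ Subgroup.closure ({a, w, t} : Set G) := by
      rw [hcl]
      exact Subgroup.mem_top g
    have hle : Subgroup.closure ({a, w, t} : Set G) ≤ Subgroup.centralizer {w * w} := by
      rw [Subgroup.closure_le]
      rintro x hx
      rw [SetLike.mem_coe, Subgroup.mem_centralizer_iff]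
      rintro y hy
      rw [Set.mem_singleton_iff] at hy
      subst hy
      rcases hx with rfl | rfl | rfl
      · exact hza
      · exact hzw
      · exact hzt
    have := Subgroup.mem_centralizer_iff.1 (hle hg) (w * w) rfl
    exact this
  have hN : (Subgroup.zpowers (w * w)).Normal := by
    refine ⟨fun x hx g => ?_⟩
    obtain ⟨n, rfl⟩ := Subgroup.mem_zpowers_iff.1 hx
    have h4 : g * (w * w) ^ n * g⁻¹ = (w * w) ^ n := by
      have h5 : Commute (w * w) g := hcen g
      have h6 : Commute ((w * w) ^ n) g := h5.zpow_left n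
      rw [← h6.eq, mul_inv_cancel_right]
    rw [h4]
    exact hx
  let φ : G →* G ⧸ Subgroup.zpowers (w * w) := QuotientGroup.mk' _
  have hφz : φ (w * w) = 1 := by
    show (QuotientGroup.mk (w * w) : G ⧸ Subgroup.zpowers (w * w)) = 1
    rw [QuotientGroup.eq_one_iff]
    exact Subgroup.mem_zpowers _
  have hR0 : Rel0 k (φ a) (φ w) (φ t) := by
    refine ⟨?_, ?_, ?_, ?_, ?_, ?_⟩
    · rw [← map_mul, hφz]
    · rw [← map_mul, haa, hφz]
    · rw [← map_inv, ← map_mul, ← map_mul, ← map_mul, ← map_mul, r1]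
    · rw [← map_inv, ← map_inv, ← map_mul, ← map_mul, r2]
    · rw [pb_cj, pb_cj, r3, map_mul]
      have h4 : φ a * φ a = 1 := by rw [← map_mul, haa, hφz]
      rw [← mul_assoc, h4, one_mul]
    · intro i j
      rw [pb_cj, pb_cj, ← map_mul, ← map_mul]
      rcases hcom i j with h | h
      · rw [h]
      · rw [h, map_mul _ _ (w * w), hφz, mul_one]
  have hcl' : Subgroup.closure ({φ a, φ w, φ t} : Set (G ⧸ Subgroup.zpowers (w * w))) = ⊤ := by
    have h4 : ({φ a, φ w, φ t} : Set (G ⧸ Subgroup.zpowers (w * w))) = φ '' {a, w, t} := by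
      rw [Set.image_insert_eq, Set.image_insert_eq, Set.image_singleton]
    rw [h4, ← MonoidHom.map_closure, hcl, ← MonoidHom.range_eq_map, MonoidHom.range_eq_top]
    exact QuotientGroup.mk'_surjective _
  have hfq : Finite (G ⧸ Subgroup.zpowers (w * w)) := h3 _ k _ _ _ hk hR0 hcl'
  have hfz : Finite (Subgroup.zpowers (w * w)) := by
    have h4 : IsOfFinOrder (w * w) := by
      rw [isOfFinOrder_iff_pow_eq_one]
      exact ⟨2, by norm_num, by rw [pow_two, hzz]⟩
    exact h4.finite_zpowers
  exact Finite.of_equiv _ (Subgroup.groupEquivQuotientProdSubgroup (s := Subgroup.zpowers (w * w))).symm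

end Pool.Agent.Helper32.C2
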